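import Mathlib
import Pool.Agent.R509.MA.All
import Pool.Agent.R306.ThickEx

/-!
# The moments of zeta along almost all arithmetic progressions

Let `Z(t) = |ζ(1/2 + it)|` and let `p > 0` be any order (`p = 8`: the eighth moment).  We say that the moment of
order `p` has the exponent `θ` if `∫_0^T Z(t)^p dt = O(T^(θ + ε))` for all `ε > 0`.  We prove
unconditionally that for almost all `α > 0` the discrete moments of all orders along the progression `α n` have
the same exponents as the moments on the critical line: for all `p > 0` and `θ ≥ 1`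

  `∑_{n < N} Z(α n)^p = O(N^(θ + ε))` for all `ε > 0`   iff
  `∫_0^T Z(t)^p dt = O(T^(θ + ε))` for all `ε > 0`.

So (`p = 8`, `θ = 1`) the eighth moment is `O(T^(1 + ε))` as soon as its values at the points `α n`, whose
distances are constant while `Z` varies at the scale `1 / log t`, are `O(N^(1 + ε))` for the `α` of a set
of positive outer measure, with constants that may depend on `α` in any way.  The same holds for the points
`α l + β`, where `l` runs through any set `Λ` of real numbers at mutual distances at least `1` which contains,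
for all `s > 0` and all large `x`, at least `c s x` points of `[x, (1 + s) x]`, for instance through a set of
integers of positive natural density.

Proof.  Large values persist (starting file on large values): up to a factor `t^ε` the value `Z(t)^p` is
attained on a part of measure `δ` of the window of radius `1` around `t`, `δ` independent of `t`.  This
gives one half for every `α`.  For the other half let the moment over `[U, 2U]` be large.  Count the points
`α l + β` in the windows around the cells `[j, j + 1]`, with weight the maximum of `Z^p` over the cell: the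
mean over any interval of `α` is of the order of the sum of the weights, and the count is bounded by a
constant times this sum; so it has this order on a fixed proportion of every short interval of `α`, and
almost every `α` has this property for infinitely many `U` by Lebesgue's density theorem.
-/

set_option autoImplicit false

open Filter Topology MeasureTheory Set Real

namespace Pool.Agent.Results.MP_56b8f5_nt.MomentsAlmostAllProgressions

/-- `|ζ(1/2 + it)|` -/
noncomputable def Z (t : ℝ) : ℝ := ‖riemannZeta (1 / 2 + t * Complex.I)‖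

/-- `∫_0^T Z(t)^p dt = O(T^(θ + ε))` for every `ε > 0`. -/
def Moment (p θ : ℝ) : Prop := ∀ ε : ℝ, 0 < ε → ∃ C : ℝ, ∀ T : ℝ, 1 ≤ T →
  ∫ t in (0 : ℝ)..T, Z t ^ p ≤ C * T ^ (θ + ε)

/-- `∑_{n < N} Z(α n)^p = O(N^(θ + ε))` for every `ε > 0`. -/
def Progression (α p θ : ℝ) : Prop := ∀ ε : ℝ, 0 < ε → ∃ C : ℝ, ∀ N : ℕ, 1 ≤ N →
  ∑ n ∈ Finset.range N, Z (α * n) ^ p ≤ C * (N : ℝ) ^ (θ + ε)

/-- `∑ Z(α l + β)^p = O(T^(θ + ε))` for every `ε > 0`, where `l` runs through the elements of `Λ` with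
`0 ≤ α l + β ≤ T` (or any finite set of them). -/
def Discrete (Λ : Set ℝ) (α β p θ : ℝ) : Prop := ∀ ε : ℝ, 0 < ε → ∃ C : ℝ, ∀ T : ℝ, 1 ≤ T →
  ∀ F : Finset ℝ, (∀ l ∈ F, l ∈ Λ ∧ 0 ≤ α * l + β ∧ α * l + β ≤ T) →
    ∑ l ∈ F, Z (α * l + β) ^ p ≤ C * T ^ (θ + ε)

/-- The distances of the elements of `Λ` are at least `1`. -/
def Separated (Λ : Set ℝ) : Prop := ∀ l ∈ Λ, ∀ l' ∈ Λ, l ≠ l' → 1 ≤ |l - l'|

/-- `Λ` is thick: there is `c > 0` such that for all `s > 0` and all large `x` there are at least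
`c s x` elements of `Λ` in `[x, (1 + s) x]`. -/
def Thick (Λ : Set ℝ) : Prop := ∃ c : ℝ, 0 < c ∧ ∀ s : ℝ, 0 < s → ∃ x₀ : ℝ, ∀ x : ℝ, x₀ ≤ x →
  ∃ S : Finset ℝ, (∀ l ∈ S, l ∈ Λ ∧ x ≤ l ∧ l ≤ (1 + s) * x) ∧ c * s * x ≤ (S.card : ℝ)

theorem thick_of_with {Λ : Set ℝ} {c : ℝ} (hc : 0 < c) (h : Pool.Agent.R306.ThickWith c Λ) : Thick Λ := by
  refine ⟨c, hc, fun s hs => ?_⟩
  obtain ⟨x₀, hx₀⟩ := h s hs
  refine ⟨x₀, fun x hx => ?_⟩
  obtain ⟨S, h1, -, h2⟩ := hx₀ x hx
  exact ⟨S, h1, h2⟩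

theorem main {Λ : Set ℝ} (hsep : Separated Λ) (hΛ : Thick Λ) (β : ℝ) :
    ∀ᵐ α : ℝ, 0 < α → ∀ p : ℝ, 0 < p → ∀ θ : ℝ, 1 ≤ θ → (Discrete Λ α β p θ ↔ Moment p θ) := by
  obtain ⟨c, hc, h⟩ := hΛ
  refine Pool.Agent.R509.MA.ae_all Pool.Agent.R509.MA.per_zeta hc (fun s hs => ?_) hsep β
  obtain ⟨x₀, hx₀⟩ := h s hs
  refine ⟨x₀, fun x hx => ?_⟩
  obtain ⟨S, h1, h2⟩ := hx₀ x hx
  exact ⟨S, h1, fun l hl l' hl' hne => hsep l (h1 l hl).1 l' (h1 l' hl').1 hne, h2⟩

theorem sep_image (A : Set ℕ) : Separated ((fun n : ℕ => (n : ℝ)) '' A) := by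
  rintro l ⟨a, -, rfl⟩ l' ⟨b, -, rfl⟩ hne
  have h1 : (a : ℤ) - b ≠ 0 := by
    intro h
    apply hne
    have : (a : ℤ) = b := by omega
    have h2 : a = b := by exact_mod_cast this
    rw [h2]
  have h2 : 1 ≤ |(a : ℤ) - b| := Int.one_le_abs h1
  have h3 : ((1 : ℤ) : ℝ) ≤ ((|(a : ℤ) - b| : ℤ) : ℝ) := by exact_mod_cast h2
  push_cast at h3
  exact h3

theorem thick_nat : Thick ((fun n : ℕ => (n : ℝ)) '' univ) := by
  refine thick_of_with (c := 1 / (2 * (1 + 1))) (by norm_num)
    (Pool.Agent.R306.thick_of_dense (g := 1) (x₁ := 0) (by norm_num) ?_)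
  intro x hx
  exact ⟨(⌈x⌉₊ : ℝ), ⟨⌈x⌉₊, mem_univ _, rfl⟩, Nat.le_ceil x, (Nat.ceil_lt_add_one hx).le⟩

theorem Z_nonneg (t : ℝ) : 0 ≤ Z t := norm_nonneg _

theorem progression_iff {α p θ : ℝ} (hα : 0 < α) (hθ : 1 ≤ θ) :
    Progression α p θ ↔ Discrete ((fun n : ℕ => (n : ℝ)) '' univ) α 0 p θ := by
  classical
  constructor
  · intro h ε hε
    obtain ⟨C, hC⟩ := h ε hε
    refine ⟨|C| * (1 / α + 1) ^ (θ + ε), fun T hT F hF => ?_⟩
    have hT0 : 0 < T := by linarith
    set N : ℕ := ⌊T / α⌋₊ + 1 with hN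
    have hNT : (N : ℝ) ≤ (1 / α + 1) * T := by
      have h1 := Nat.floor_le (show 0 ≤ T / α by positivity)
      rw [hN]
      push_cast
      have e : (1 / α + 1) * T = T / α + T := by ring
      rw [e]
      linarith
    have hsub : F ⊆ (Finset.range N).image (fun n : ℕ => (n : ℝ)) := by
      intro l hl
      obtain ⟨⟨n, -, hn⟩, -, h2⟩ := hF l hl
      rw [Finset.mem_image]
      refine ⟨n, ?_, hn⟩
      rw [Finset.mem_range, hN]
      have hn' : (n : ℝ) = l := hn
      have h3 : (n : ℝ) ≤ T / α := by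
        rw [le_div_iff₀ hα, hn']; linarith
      have h4 : n ≤ ⌊T / α⌋₊ := Nat.le_floor h3
      omega
    calc ∑ l ∈ F, Z (α * l + 0) ^ p
        ≤ ∑ l ∈ (Finset.range N).image (fun n : ℕ => (n : ℝ)), Z (α * l + 0) ^ p :=
          Finset.sum_le_sum_of_subset_of_nonneg hsub fun l _ _ => rpow_nonneg (Z_nonneg _) _
      _ = ∑ n ∈ Finset.range N, Z (α * n) ^ p := by
          rw [Finset.sum_image (fun a _ b _ hab => by exact_mod_cast hab)]
          refine Finset.sum_congr rfl fun n _ => ?_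
          rw [add_zero]
      _ ≤ C * (N : ℝ) ^ (θ + ε) := hC N (by omega)
      _ ≤ |C| * ((1 / α + 1) * T) ^ (θ + ε) := by
          refine mul_le_mul (le_abs_self C) (rpow_le_rpow (by positivity) hNT (by linarith))
            (rpow_nonneg (by positivity) _) (abs_nonneg C)
      _ = _ := by rw [mul_rpow (by positivity) hT0.le, mul_assoc]
  · intro h ε hε
    obtain ⟨C, hC⟩ := h ε hε
    refine ⟨|C| * (α + 1) ^ (θ + ε), fun N hN => ?_⟩
    have hN1 : (1 : ℝ) ≤ N := by exact_mod_cast hN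
    have h1 := hC ((α + 1) * N) (by nlinarith) ((Finset.range N).image (fun n : ℕ => (n : ℝ))) (by
      intro l hl
      rw [Finset.mem_image] at hl
      obtain ⟨n, hn, rfl⟩ := hl
      rw [Finset.mem_range] at hn
      have h2 : (n : ℝ) ≤ N := by exact_mod_cast hn.le
      have h3 : 0 ≤ (n : ℝ) := Nat.cast_nonneg n
      refine ⟨⟨n, mem_univ _, rfl⟩, by positivity, ?_⟩
      rw [add_zero]
      nlinarith)
    rw [Finset.sum_image (fun a _ b _ hab => by exact_mod_cast hab)] at h1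
    calc ∑ n ∈ Finset.range N, Z (α * n) ^ p = ∑ n ∈ Finset.range N, Z (α * n + 0) ^ p := by
          refine Finset.sum_congr rfl fun n _ => ?_
          rw [add_zero]
      _ ≤ C * ((α + 1) * N) ^ (θ + ε) := h1
      _ ≤ |C| * ((α + 1) * N) ^ (θ + ε) :=
          mul_le_mul_of_nonneg_right (le_abs_self C) (rpow_nonneg (by positivity) _)
      _ = _ := by rw [mul_rpow (by positivity) (by positivity), mul_assoc]

theorem progressions : ∀ᵐ α : ℝ, 0 < α → ∀ p : ℝ, 0 < p → ∀ θ : ℝ, 1 ≤ θ →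
    (Progression α p θ ↔ Moment p θ) := by
  filter_upwards [main (sep_image univ) thick_nat 0] with α hα h0 p hp θ hθ
  rw [progression_iff h0 hθ]
  exact hα h0 p hp θ hθ

theorem result :
    -- (1) almost all arithmetic progressions, all orders at once
    (∀ᵐ α : ℝ, 0 < α → ∀ p : ℝ, 0 < p → ∀ θ : ℝ, 1 ≤ θ → (Progression α p θ ↔ Moment p θ)) ∧
    -- (2) a set of `α` of positive outer measure decides
    (∀ p : ℝ, 0 < p → ∀ θ : ℝ, 1 ≤ θ → ∀ E : Set ℝ, E ⊆ Ioi 0 → volume E ≠ 0 →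
      (∀ α ∈ E, Progression α p θ) → Moment p θ) ∧
    -- (3) separated thick sets in the place of the integers
    (∀ Λ : Set ℝ, Separated Λ → Thick Λ → ∀ β : ℝ, ∀ᵐ α : ℝ, 0 < α →
      ∀ p : ℝ, 0 < p → ∀ θ : ℝ, 1 ≤ θ → (Discrete Λ α β p θ ↔ Moment p θ)) ∧
    -- (4) sets of integers of positive natural density are separated and thick
    (∀ (A : Set ℕ) [DecidablePred (· ∈ A)] (d : ℝ), 0 < d →
      Tendsto (fun n : ℕ => (((Finset.range n).filter (· ∈ A)).card : ℝ) / n) atTop (𝓝 d) →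
      Separated ((fun n : ℕ => (n : ℝ)) '' A) ∧ Thick ((fun n : ℕ => (n : ℝ)) '' A)) ∧
    -- (5) one direction, for every `α`
    (∀ Λ : Set ℝ, Separated Λ → ∀ α β : ℝ, 0 < α → ∀ p : ℝ, 0 < p → ∀ θ : ℝ, 1 ≤ θ →
      Moment p θ → Discrete Λ α β p θ) := by
  refine ⟨progressions, ?_, fun Λ h1 h2 β => main h1 h2 β, ?_, ?_⟩
  · intro p hp θ hθ E hE hv h
    by_contra hcon
    apply hv
    refine measure_mono_null ?_ (ae_iff.1 progressions)
    intro α hα h1
    exact hcon ((h1 (hE hα) p hp θ hθ).1 (h α hα))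
  · intro A _ d hd hA
    exact ⟨sep_image A, thick_of_with (by positivity) (Pool.Agent.R306.thick_of_density hd hA)⟩
  · intro Λ hsep α β hα p hp θ hθ h
    exact Pool.Agent.R509.MA.disc_of_moment Pool.Agent.R509.MA.per_zeta hp hθ hsep hα β h

end Pool.Agent.Results.MP_56b8f5_nt.MomentsAlmostAllProgressions
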