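import Pool.Agent.R461.HM.Pow3

set_option autoImplicit false

/-!
# MP_56b8f5_nt: powers of the local mean squares of zeta along measures and progressions of heights

Let `m(t)` be the weighted mean square of `ζ(1/2 + i(t + u))` over `u` at the scale `1 / log T`. For every `q` the mean of
`m(t)^q`, the heights `t` distributed by any probability measure on `[T, 2T]` (singular or discrete) with integrals of
`(m/n)^(it)`, `m ≠ n`, `m n ≤ T^κ`, at most `T^(-κ) (1 + 1 / |log(m/n)|)`, is at least `c (log T)^(q²)`; for `q = 4` this is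
the order `(log T)^16` of the eighth moment. The case of arithmetic progressions of heights with almost every spacing.
-/

namespace Pool.Agent.Results.MP_56b8f5_nt.PowersOfLocalMeans

open Complex MeasureTheory Filter Topology Set
open scoped ENNReal

noncomputable section

/-- the weighted mean of `|ζ(1/2 + i(t + u))|²` over `u` at the scale `1 / log T` -/
def localSq (N : ℕ) (T t : ℝ) : ℝ≥0∞ :=
  ∫⁻ u : ℝ, ENNReal.ofReal (‖riemannZeta (1 / 2 + I * (t + u))‖ ^ 2 * (Real.log T / (1 + Real.log T * |u|) ^ N))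

/-- probability measures of heights in `[T, 2T]` for which the characters with `m n ≤ T^κ` have small integrals -/
structure Heights (T κ : ℝ) (ν : Measure ℝ) : Prop where
  prob : IsProbabilityMeasure ν
  supp : ∀ᵐ t ∂ν, t ∈ Icc T (2 * T)
  small : ∀ m n : ℕ, 1 ≤ m → 1 ≤ n → m ≠ n → (m : ℝ) * n ≤ T ^ κ →
    ‖∫ t : ℝ, exp (I * (t * Real.log (m / n))) ∂ν‖ ≤ T ^ (-κ) * (1 + 1 / |Real.log (m / n)|)

lemma localSq_eq (N : ℕ) (T t : ℝ) : localSq N T t = R461.HM.loc 1 N T t := by
  unfold localSq R461.HM.loc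
  simp only [mul_one]

/-- Let `q ≥ 1` (`q = 4`: the eighth moment), `N`, `κ > 0`. (1) There are `c > 0`, `T₀` such that for `T ≥ T₀` and all
probability measures `ν` of heights in `[T, 2T]` with the parameter `κ` the mean of the `q`-th power of the local mean square
is at least `c (log T)^(q²)`. (2) There is `c > 0` such that for almost every `h > 0` there is `T₀` with: for `T ≥ T₀` and
all arithmetic progressions `x, x + h, …, x + (J-1) h` in `[T, 2T]` with `J ≥ T^κ` terms the mean of the `q`-th powers of the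
local mean squares at these heights is at least `c (log T)^(q²)`. -/
theorem result (q : ℕ) (hq : 1 ≤ q) (N : ℕ) (κ : ℝ) (hκ : 0 < κ) :
    (∃ c T₀ : ℝ, 0 < c ∧ ∀ T : ℝ, T₀ ≤ T → ∀ ν : Measure ℝ, Heights T κ ν →
      ENNReal.ofReal (c * Real.log T ^ (q ^ 2)) ≤ ∫⁻ t, localSq N T t ^ q ∂ν) ∧
    (∃ c : ℝ, 0 < c ∧ ∀ᵐ h : ℝ, 0 < h → ∃ T₀ : ℝ, ∀ T : ℝ, T₀ ≤ T → ∀ J : ℕ, T ^ κ ≤ J → ∀ x : ℝ, T ≤ x →
      x + J * h ≤ 2 * T →
      ENNReal.ofReal (c * Real.log T ^ (q ^ 2)) ≤
        (J : ℝ≥0∞)⁻¹ * ∑ j ∈ Finset.range J, localSq N T (x + j * h) ^ q) := by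
  simp only [localSq_eq]
  constructor
  · obtain ⟨c, T₀, hc, hT₀, h⟩ := R461.HM.pow_main hq N hκ
    refine ⟨c, T₀, hc, fun T hT ν hν => ?_⟩
    have hT0 : 0 < T := (Real.exp_pos 1).trans_le (hT₀.trans hT)
    refine h T hT ν hν.prob ?_ hν.small
    filter_upwards [hν.supp] with t ht
    exact ⟨by linarith [ht.1], by linarith [ht.2]⟩
  · obtain ⟨c, T₀, hc, hT₀, hlow⟩ := R461.HM.pow_main hq N (κ := κ / 10) (by positivity)
    refine ⟨c, hc, ?_⟩
    filter_upwards [R461.HM.ap_small hκ] with d hd hpos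
    obtain ⟨T₁, hT₁, hsm⟩ := hd hpos
    refine ⟨max T₀ T₁, fun T hT J hJ x hx1 hx2 => ?_⟩
    have hTa := (le_max_left _ _).trans hT
    have hTb := (le_max_right _ _).trans hT
    have hT1 : 1 ≤ T := hT₁.trans hTb
    have hT0 : 0 < T := by linarith
    have hL : 1 ≤ Real.log T := by
      rw [Real.le_log_iff_exp_le hT0]
      exact hT₀.trans hTa
    have hJ1 : 1 ≤ J := by
      have h1 : (1:ℝ) ≤ J := (Real.one_le_rpow hT1 hκ.le).trans hJ
      exact_mod_cast h1
    have hν : R461.HM.Heights T (T ^ (κ / 10)) (T ^ (-(κ / 10))) (R461.HM.unif J (fun j => x + j * d)) := by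
      refine R461.HM.unif_heights hJ1 (fun j hj => ?_) (fun m n hm hn hmn hY => hsm T hTb J hJ x m n hm hn hmn (by
        rwa [show 2 * (κ / 20) = κ / 10 by ring]))
      have h2 : (j:ℝ) ≤ J := by exact_mod_cast hj.le
      constructor
      · have : 0 ≤ (j:ℝ) * d := by positivity
        linarith
      · have : (j:ℝ) * d ≤ J * d := by gcongr
        linarith
    have h3 := hlow T hTa _ hν.prob (by
      filter_upwards [hν.supp] with t ht
      exact ⟨by linarith [ht.1], by linarith [ht.2]⟩) hν.small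
    refine h3.trans (le_of_eq ?_)
    unfold R461.HM.unif
    rw [lintegral_smul_measure, lintegral_finsetSum_measure]
    have hm : Measurable fun t => R461.HM.loc 1 N T t ^ q := (R461.HM.loc_meas 1 N (by linarith)).pow_const q
    simp only [lintegral_dirac' _ hm, smul_eq_mul]

end

end Pool.Agent.Results.MP_56b8f5_nt.PowersOfLocalMeans
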